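import Mathlib
import Pool.Agent.H646.Sv1
import Pool.Agent.H646.Sv2
import Pool.Agent.H646.Sv3

set_option autoImplicit false
set_option maxHeartbeats 4000000

/-! # Upper bound sieve: integers `n` such that all `n + d`, `d ∈ D`, have no small prime factors -/

namespace Pool.Agent.N893.PG

open Finset Pool.Agent.H646 Pool.Agent.H646.Sv1M Pool.Agent.H646.Sv2M Pool.Agent.H646.Sv3M

/-- Mertens: the product over the primes in `(k, y]`. -/
theorem prod_PR (k : ℕ) : ∃ C : ℝ, 1 ≤ C ∧ ∀ y : ℕ, 2 ≤ y →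
    ∏ p ∈ PR k y, (1 - (p : ℝ)⁻¹) ≤ C / Real.log y := by
  refine ⟨∏ p ∈ (k + 1).primesBelow, (1 - (p : ℝ)⁻¹)⁻¹,
    one_le_prod_real (fun p hp => one_le_inv_factor (Nat.prime_of_mem_primesBelow hp)), ?_⟩
  intro y hy
  set Ck : ℝ := ∏ p ∈ (k + 1).primesBelow, (1 - (p : ℝ)⁻¹)⁻¹ with hCk
  have hlog : 0 < Real.log y := Real.log_pos (by exact_mod_cast hy)
  have hPR : ∀ p ∈ PR k y, p.Prime ∧ k < p ∧ p ≤ y := by
    intro p hp
    unfold PR at hp
    rw [Finset.mem_filter, Finset.mem_Ioc] at hp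
    exact ⟨hp.2, hp.1.1, hp.1.2⟩
  have h1 : Real.log y ≤ (∏ p ∈ PR k y, (1 - (p : ℝ)⁻¹)⁻¹) * Ck := by
    have hsub : (y + 1).primesBelow ⊆ PR k y ∪ (k + 1).primesBelow := by
      intro p hp
      rw [Nat.mem_primesBelow] at hp
      rw [Finset.mem_union]
      by_cases hpk : k < p
      · left
        unfold PR
        rw [Finset.mem_filter, Finset.mem_Ioc]
        exact ⟨⟨hpk, by omega⟩, hp.2⟩
      · right
        rw [Nat.mem_primesBelow]
        exact ⟨by omega, hp.2⟩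
    have hdis : Disjoint (PR k y) ((k + 1).primesBelow) := by
      rw [Finset.disjoint_left]
      intro p hp hp2
      rw [Nat.mem_primesBelow] at hp2
      have := (hPR p hp).2.1
      omega
    calc Real.log y ≤ ∏ p ∈ (y + 1).primesBelow, (1 - (p : ℝ)⁻¹)⁻¹ := log_le_euler y
      _ ≤ ∏ p ∈ PR k y ∪ (k + 1).primesBelow, (1 - (p : ℝ)⁻¹)⁻¹ := by
          apply prod_mono_set hsub
          intro p hp
          rw [Finset.mem_union] at hp
          rcases hp with hp | hp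
          · exact one_le_inv_factor (hPR p hp).1
          · exact one_le_inv_factor (Nat.prime_of_mem_primesBelow hp)
      _ = _ := by rw [Finset.prod_union hdis]
  have hpos : 0 < ∏ p ∈ PR k y, (1 - (p : ℝ)⁻¹) :=
    Finset.prod_pos (fun p hp => (prime_factor_pos (hPR p hp).1).1)
  rw [Finset.prod_inv_distrib] at h1
  rw [le_div_iff₀ hlog]
  have h2 := mul_le_mul_of_nonneg_left h1 hpos.le
  calc _ ≤ _ := h2
    _ = Ck := by rw [← mul_assoc, mul_inv_cancel₀ hpos.ne', one_mul]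

theorem sifted_geR {k : ℕ} (hk : 1 ≤ k) (d : Fin k → ℕ) (x y : ℕ) :
    (#{n ∈ range x | ∀ p ∈ PR k y, ∀ j, ¬ p ∣ n + (d j + 1)} : ℝ) ≤ (svT hk d x y).siftedSum := by
  unfold BoundingSieve.siftedSum
  change _ ≤ ∑ m ∈ (range x).image (fun n => fv d n),
    (if Nat.Coprime (∏ p ∈ PR k y, p) m then (1:ℝ) else 0)
  rw [sum_image (fun a _ b _ hab => fv_injective hk d hab)]
  have h1 : (#{n ∈ range x | ∀ p ∈ PR k y, ∀ j, ¬ p ∣ n + (d j + 1)} : ℝ) =
      ∑ n ∈ range x, if (∀ p ∈ PR k y, ∀ j, ¬ p ∣ n + (d j + 1)) then (1 : ℝ) else 0 := by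
    rw [card_eq_sum_ones, sum_filter]
    push_cast
    rfl
  rw [h1]
  apply sum_le_sum
  intro n _
  by_cases hp : (∀ p ∈ PR k y, ∀ j, ¬ p ∣ n + (d j + 1))
  · rw [if_pos hp, if_pos]
    unfold fv
    apply Nat.Coprime.prod_right
    intro j _
    apply Nat.Coprime.prod_left
    intro p hpP
    exact ((Nat.Prime.coprime_iff_not_dvd (PR_prime' hpP).1).2 (hp p hpP j))
  · rw [if_neg hp]; split_ifs <;> norm_num

theorem rough_selberg (k : ℕ) (hk : 1 ≤ k) (d : Fin k → ℕ) (x y z : ℕ) (hz : 1 ≤ z) :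
    (#{n ∈ range x | ∀ p ∈ PR k y, ∀ j, ¬ p ∣ n + (d j + 1)} : ℝ) ≤
      x / (∑ l ∈ (∏ p ∈ PR k y, p).divisors with l ≤ z,
        ∏ p ∈ l.primeFactors, (rho d p : ℝ) / (p - rho d p)) + (z : ℝ) ^ 6 := by
  have h4 := sifted_geR hk d x y
  have h5 := Pool.Agent.H646.Sel.selberg_bound (s := svT hk d x y) (z := z) hz
    (fun l hl => nu_inv_leT hk d x y l hl) (fun l hl => rem_leT hk d x y l hl)
  have h6 : Pool.Agent.H646.Sel.GS (svT hk d x y) z =
      ∑ l ∈ (∏ p ∈ PR k y, p).divisors with l ≤ z,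
        ∏ p ∈ l.primeFactors, (rho d p : ℝ) / (p - rho d p) := by
    unfold Pool.Agent.H646.Sel.GS
    apply sum_congr rfl
    intro l hl
    rw [mem_filter] at hl
    exact st_eqT hk d x y l (Nat.dvd_of_mem_divisors hl.1)
  rw [h6] at h5
  have h7 : (svT hk d x y).totalMass = x := rfl
  rw [h7] at h5
  linarith

/-- a surjection onto the set of the shifts -/
theorem exists_enum (D : Finset ℕ) (hD : D.Nonempty) (k : ℕ) (hk : D.card ≤ k) :
    ∃ d : Fin k → ℕ, (univ : Finset (Fin k)).image d = D := by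
  classical
  have h1 : Fintype.card D ≤ Fintype.card (Fin k) := by
    rw [Fintype.card_coe, Fintype.card_fin]; exact hk
  obtain ⟨e⟩ := Function.Embedding.nonempty_of_card_le h1
  obtain ⟨x₀, hx₀⟩ := hD
  have : Nonempty D := ⟨⟨x₀, hx₀⟩⟩
  refine ⟨fun j => (Function.invFun e j : D).1, ?_⟩
  ext x
  rw [mem_image]
  constructor
  · rintro ⟨j, _, rfl⟩
    exact (Function.invFun e j : D).2
  · intro hx
    obtain ⟨j, hj⟩ := Function.invFun_surjective e.injective ⟨x, hx⟩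
    exact ⟨j, mem_univ _, by rw [hj]⟩

open scoped Classical in
/-- Upper bound sieve of dimension `#D` for the shifts `D`, only with the primes `> W`. -/
theorem rough_shift (D : Finset ℕ) (hD : D.Nonempty) (W : ℕ) : ∃ C : ℝ, 0 < C ∧ ∃ x₀ : ℕ, 3 ≤ x₀ ∧
    ∀ x : ℕ, x₀ ≤ x →
    (((range x).filter (fun n => ∀ p : ℕ, p.Prime → W < p → (p : ℝ) ≤ Real.sqrt x →
      ∀ d ∈ D, ¬ p ∣ n + (d + 1))).card : ℝ) ≤ C * x / (Real.log x) ^ D.card := by
  set κ := D.card with hκ
  have hκ1 : 1 ≤ κ := card_pos.2 hD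
  set K : ℕ := max κ (max W (D.sup id)) + 1 with hK
  have hKκ : κ ≤ K := by omega
  have hK1 : 1 ≤ K := by omega
  have hKW : W ≤ K := by omega
  have hKD : ∀ x ∈ D, x < K := by
    intro x hx
    have : x ≤ D.sup id := le_sup (f := id) hx
    omega
  obtain ⟨d, hd⟩ := exists_enum D hD K hKκ
  obtain ⟨E, hE, y₀, hR⟩ := rankin_lower K hK1
  obtain ⟨C, hC, hP⟩ := prod_PR K
  have hE' : (0 : ℝ) < 1 / (12 * E) := by
    have : (0 : ℝ) < E := by exact_mod_cast hE
    positivity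
  have hu : Filter.Tendsto (fun x : ℕ => (x : ℝ) ^ (1 / (12 * E) : ℝ)) Filter.atTop Filter.atTop :=
    (tendsto_rpow_atTop hE').comp tendsto_natCast_atTop_atTop
  have hu1 := hu.eventually_ge_atTop (max (4 : ℝ) (y₀ + 2))
  have ev_log : ∀ᶠ x : ℕ in Filter.atTop, (Real.log x) ^ κ ≤ (x : ℝ) ^ (1 / 2 : ℝ) := by
    have h1 : (fun x : ℝ => Real.log x ^ (κ : ℝ)) =o[Filter.atTop] fun x : ℝ => x ^ (1 / 2 : ℝ) :=
      isLittleO_log_rpow_rpow_atTop (κ : ℝ) (by norm_num)
    have h2 := (h1.bound (c := 1) (by norm_num))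
    have h3 := tendsto_natCast_atTop_atTop (R := ℝ) |>.eventually h2
    filter_upwards [h3, Filter.eventually_ge_atTop 1] with x hx hx1
    have h4 : 0 ≤ Real.log x := Real.log_natCast_nonneg x
    rw [Real.rpow_natCast, Real.norm_of_nonneg (by positivity), Real.norm_of_nonneg (by positivity)] at hx
    linarith
  obtain ⟨x₀, hx₀⟩ := Filter.eventually_atTop.mp
    (ev_log.and (hu1.and (Filter.eventually_ge_atTop 3)))
  refine ⟨1 + 2 * (C * (24 * E)) ^ κ, by positivity, max 3 x₀, le_max_left _ _, ?_⟩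
  intro x hx
  obtain ⟨h1, h2, h3⟩ := hx₀ x ((le_max_right _ _).trans hx)
  set u : ℝ := (x : ℝ) ^ (1 / (12 * E) : ℝ) with hudef
  have hu4 : 4 ≤ u := le_trans (le_max_left _ _) h2
  have huy : (y₀ : ℝ) + 2 ≤ u := le_trans (le_max_right _ _) h2
  set y : ℕ := ⌊u⌋₊ with hy
  have hyu : (y : ℝ) ≤ u := Nat.floor_le (by linarith)
  have hyu2 : u / 2 ≤ y := by
    have := Nat.lt_floor_add_one u
    linarith
  have hy0 : y₀ ≤ y := Nat.le_floor (by linarith)
  have hy2 : 2 ≤ y := Nat.le_floor (by push_cast; linarith)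
  have hx0 : (0 : ℝ) < x := by exact_mod_cast (by omega : 0 < x)
  have hx1 : (1 : ℝ) ≤ x := by exact_mod_cast (by omega : 1 ≤ x)
  have hlogx : 0 < Real.log x := Real.log_pos (by exact_mod_cast (by omega : 1 < x))
  have hEr : (0 : ℝ) < E := by exact_mod_cast hE
  have hE1 : (1 : ℝ) ≤ E := by exact_mod_cast hE
  have hlogu : Real.log u = Real.log x / (12 * E) := by
    rw [hudef, Real.log_rpow hx0]; ring
  have hlogy : Real.log x / (24 * E) ≤ Real.log y := by
    have h4 : Real.log (u / 2) ≤ Real.log y := Real.log_le_log (by linarith) hyu2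
    rw [Real.log_div (by linarith) (by norm_num)] at h4
    have h5 : 2 * Real.log 2 ≤ Real.log u := by
      have : Real.log (2 ^ 2) ≤ Real.log u := Real.log_le_log (by norm_num) (by linarith)
      rw [Real.log_pow] at this
      simpa using this
    have h6 : Real.log x / (24 * E) = Real.log u / 2 := by rw [hlogu]; field_simp; ring
    linarith
  have hlogy0 : 0 < Real.log x / (24 * E) := by positivity
  set z : ℕ := y ^ E with hz
  have hz1 : 1 ≤ z := Nat.one_le_pow _ _ (by omega)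
  have hupow : u ^ (6 * E) = (x : ℝ) ^ (1 / 2 : ℝ) := by
    rw [hudef, ← Real.rpow_natCast, ← Real.rpow_mul hx0.le]
    congr 1
    push_cast
    field_simp
    ring
  have hz6 : (z : ℝ) ^ 6 ≤ (x : ℝ) ^ (1 / 2 : ℝ) := by
    rw [hz, ← hupow]
    push_cast
    rw [← pow_mul, mul_comm E 6]
    exact pow_le_pow_left₀ (by positivity) hyu _
  have hysq : (y : ℝ) ≤ Real.sqrt x := by
    rw [Real.sqrt_eq_rpow]
    refine hyu.trans ?_
    rw [hudef]
    apply Real.rpow_le_rpow_of_exponent_le hx1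
    rw [div_le_div_iff₀ (by positivity) (by norm_num)]
    linarith
  have hrho : ∀ p ∈ PR K y, rho d p = κ := by
    intro p hp
    have hKp := (PR_prime' hp).2.1
    unfold rho
    have e1 : (univ.image fun j => d j % p) = univ.image d := by
      apply image_congr
      intro j _
      have hj : d j ∈ D := by
        rw [← hd]; exact mem_image_of_mem _ (mem_univ _)
      have := hKD _ hj
      exact Nat.mod_eq_of_lt (by omega)
    rw [e1, hd]
  have hS := hR y hy0 (rho d) (fun p hp => by rw [hrho p hp]; exact ⟨hκ1, hKκ⟩) z le_rfl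
  set S := ∑ l ∈ (∏ p ∈ PR K y, p).divisors with l ≤ z,
          ∏ p ∈ l.primeFactors, (rho d p : ℝ) / (p - rho d p) with hSdef
  set PP := ∏ p ∈ PR K y, (1 - (rho d p : ℝ) / p) with hPP
  have hprod : ∏ p ∈ PR K y, (1 - (rho d p : ℝ) / p)⁻¹ = PP⁻¹ := Finset.prod_inv_distrib _
  have hfac0 : ∀ p ∈ PR K y, 0 < 1 - (rho d p : ℝ) / p := by
    intro p hp
    have h5 := (PR_prime' hp).2.1
    have h6 : (0 : ℝ) < p := by exact_mod_cast (by omega : 0 < p)
    rw [sub_pos, div_lt_one h6, hrho p hp]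
    exact_mod_cast (by omega : κ < p)
  have hPP0 : 0 < PP := Finset.prod_pos hfac0
  rw [hprod] at hS
  have hS0 : 0 < S := lt_of_lt_of_le (by positivity) hS
  have hinv : 1 / S ≤ 2 * PP := by
    rw [div_le_iff₀ hS0]
    have : 2 * PP * (1 / 2 * PP⁻¹) ≤ 2 * PP * S := mul_le_mul_of_nonneg_left hS (by positivity)
    have h4 : 2 * PP * (1 / 2 * PP⁻¹) = 1 := by field_simp
    linarith
  have hPb : PP ≤ (C / (Real.log x / (24 * E))) ^ κ := by
    have h5 : PP ≤ (∏ p ∈ PR K y, (1 - (p : ℝ)⁻¹)) ^ κ := by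
      rw [hPP, ← Finset.prod_pow]
      apply Finset.prod_le_prod (fun p hp => (hfac0 p hp).le)
      intro p hp
      have hpp := (PR_prime' hp).1
      rw [hrho p hp]
      have h7 : (p : ℝ)⁻¹ ≤ 1 := by
        have : (1 : ℝ) ≤ p := by exact_mod_cast hpp.pos
        exact inv_le_one_of_one_le₀ this
      have h8 := one_add_mul_le_pow (a := -(p : ℝ)⁻¹) (by linarith) κ
      calc (1 - (κ : ℝ) / p) = 1 + (κ : ℝ) * (-(p : ℝ)⁻¹) := by rw [div_eq_mul_inv]; ring
        _ ≤ _ := h8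
        _ = _ := by rw [← sub_eq_add_neg]
    refine h5.trans ?_
    apply pow_le_pow_left₀ (Finset.prod_nonneg (fun p hp => (prime_factor_pos (PR_prime' hp).1).1.le))
    refine (hP y hy2).trans ?_
    exact div_le_div_of_nonneg_left (by linarith) hlogy0 hlogy
  have hmain := rough_selberg K hK1 d x y z hz1
  have hsub : (range x).filter (fun n => ∀ p : ℕ, p.Prime → W < p → (p : ℝ) ≤ Real.sqrt x →
      ∀ d ∈ D, ¬ p ∣ n + (d + 1)) ⊆ {n ∈ range x | ∀ p ∈ PR K y, ∀ j, ¬ p ∣ n + (d j + 1)} := by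
    intro n hn
    rw [mem_filter] at hn ⊢
    refine ⟨hn.1, fun p hp j => ?_⟩
    obtain ⟨g1, g2, g3⟩ := PR_prime' hp
    apply hn.2 p g1 (by omega)
    · have : (p : ℝ) ≤ y := by exact_mod_cast g3
      linarith
    · rw [← hd]; exact mem_image_of_mem _ (mem_univ _)
  have hcard : (((range x).filter (fun n => ∀ p : ℕ, p.Prime → W < p → (p : ℝ) ≤ Real.sqrt x →
      ∀ d ∈ D, ¬ p ∣ n + (d + 1))).card : ℝ) ≤ (#{n ∈ range x | ∀ p ∈ PR K y, ∀ j, ¬ p ∣ n + (d j + 1)} : ℝ) := by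
    exact_mod_cast card_le_card hsub
  have hxS : (x : ℝ) / S ≤ x * (2 * (C / (Real.log x / (24 * E))) ^ κ) := by
    rw [div_eq_mul_one_div]
    apply mul_le_mul_of_nonneg_left _ hx0.le
    exact hinv.trans (mul_le_mul_of_nonneg_left hPb (by norm_num))
  have hrest : (z : ℝ) ^ 6 ≤ x / (Real.log x) ^ κ := by
    refine hz6.trans ?_
    rw [le_div_iff₀ (by positivity)]
    calc (x : ℝ) ^ (1 / 2 : ℝ) * Real.log x ^ κ ≤ (x : ℝ) ^ (1 / 2 : ℝ) * (x : ℝ) ^ (1 / 2 : ℝ) :=
          mul_le_mul_of_nonneg_left h1 (by positivity)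
      _ = x := by
        rw [← Real.rpow_add hx0]; norm_num
  have hfin : x * (2 * (C / (Real.log x / (24 * E))) ^ κ) = 2 * (C * (24 * E)) ^ κ * x / (Real.log x) ^ κ := by
    have e : C / (Real.log x / (24 * E)) = C * (24 * E) / Real.log x := by field_simp
    rw [e, div_pow]
    ring
  calc _ ≤ _ := hcard
    _ ≤ _ := hmain
    _ ≤ x * (2 * (C / (Real.log x / (24 * E))) ^ κ) + x / (Real.log x) ^ κ := add_le_add hxS hrest
    _ = (1 + 2 * (C * (24 * E)) ^ κ) * x / Real.log x ^ κ := by rw [hfin]; ring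

end Pool.Agent.N893.PG
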