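import Mathlib
import Pool.Agent.N893.RK.Greedy
import Pool.Agent.N893.PG.Rough
import Pool.Agent.N893.PG.Rankin2
import Pool.Agent.N893.CF.Surv

set_option autoImplicit false
set_option maxHeartbeats 4000000

/-! # Translates of the values of a polynomial without primes: the survivors -/

namespace Pool.Agent.N893.PG

open Finset Filter Pool.Agent.H318R2.Cr Pool.Agent.H398R2.RK Pool.Agent.N893.RK Pool.Agent.N893.CF

open scoped Classical

/-- `t` is not removed by the special classes. -/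
def Ok (R : Finset ℤ) (W : ℕ) (y : ℝ) (S : Finset ℕ) (t : ℤ) : Prop :=
  ∀ p : ℕ, p.Prime → ¬ p ∣ W → (p : ℝ) ≤ y → p ∉ S → ∀ r ∈ R, ¬ (p : ℤ) ∣ t - r

/-- the shifts on the side `ε` -/
noncomputable def Dsh (R : Finset ℤ) (ρ : ℕ) (ε : ℤ) : Finset ℕ := R.image (fun r => ((ρ : ℤ) - ε * r).toNat)

theorem Dsh_card (R : Finset ℤ) (ρ : ℕ) (hρ : ∀ r ∈ R, |r| ≤ (ρ : ℤ)) (ε : ℤ) (hε : ε = 1 ∨ ε = -1) :
    (Dsh R ρ ε).card = R.card := by
  unfold Dsh
  apply card_image_of_injOn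
  intro r hr r' hr' h
  have h1 := abs_le.1 (hρ r (mem_coe.1 hr))
  have h2 := abs_le.1 (hρ r' (mem_coe.1 hr'))
  have h3 : (((ρ : ℤ) - ε * r).toNat : ℤ) = (((ρ : ℤ) - ε * r').toNat : ℤ) := by
    simp only at h
    rw [h]
  rcases hε with rfl | rfl
  · rw [Int.toNat_of_nonneg (by linarith), Int.toNat_of_nonneg (by linarith)] at h3
    linarith
  · rw [Int.toNat_of_nonneg (by linarith), Int.toNat_of_nonneg (by linarith)] at h3
    linarith

theorem card_side (R : Finset ℤ) (W : ℕ) (hW : 1 ≤ W) (y : ℝ) (S : Finset ℕ) (ρ : ℕ)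
    (hρ : ∀ r ∈ R, |r| ≤ (ρ : ℤ)) (ε : ℤ) (hε : ε = 1 ∨ ε = -1) (L M : ℕ) (hM : L + ρ ≤ M)
    (hLy : Real.sqrt L ≤ y)
    (Sm : ℕ → Prop) (hdich : ∀ m : ℕ, 1 ≤ m → m ≤ M →
      (∀ p : ℕ, p.Prime → p ∣ m → (y < p ∨ p ∈ S ∨ p ∣ W)) → Sm m ∨
        (∀ p : ℕ, p.Prime → p ∣ m → (y < p ∨ p ∣ W))) :
    ((Finset.Icc (-(L : ℤ)) L).filter (fun t => Ok R W y S t ∧ (ρ : ℤ) < ε * t)).card ≤
      R.card * ((Finset.Icc 1 M).filter Sm).card +
        ((range L).filter (fun n => ∀ p : ℕ, p.Prime → W < p → (p : ℝ) ≤ Real.sqrt L →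
          ∀ d ∈ Dsh R ρ ε, ¬ p ∣ n + (d + 1))).card := by
  obtain ⟨Q, hQ⟩ : ∃ Q : Finset ℤ, Q = (Finset.Icc (-(L : ℤ)) L).filter
    (fun t => Ok R W y S t ∧ (ρ : ℤ) < ε * t) := ⟨_, rfl⟩
  rw [← hQ]
  set f : ℤ → ℕ := fun t => (ε * t - ρ - 1).toNat with hf
  have hfz : ∀ t ∈ Q, (f t : ℤ) = ε * t - ρ - 1 := by
    intro t ht
    rw [hQ, mem_filter] at ht
    rw [hf]
    exact Int.toNat_of_nonneg (by linarith [ht.2.2])
  have hinj : Set.InjOn f Q := by
    intro t ht t' ht' h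
    have h1 := hfz t (mem_coe.1 ht)
    have h2 := hfz t' (mem_coe.1 ht')
    rw [h, h2] at h1
    rcases hε with rfl | rfl <;> linarith
  have hsub : Q.image f ⊆ (R.biUnion (fun r => ((Finset.Icc 1 M).filter Sm).image
      (fun m => m - (((ρ : ℤ) - ε * r).toNat + 1)))) ∪
      (range L).filter (fun n => ∀ p : ℕ, p.Prime → W < p → (p : ℝ) ≤ Real.sqrt L →
          ∀ d ∈ Dsh R ρ ε, ¬ p ∣ n + (d + 1)) := by
    intro n hn
    rw [mem_image] at hn
    obtain ⟨t, ht, rfl⟩ := hn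
    have h1 := hfz t ht
    rw [hQ, mem_filter, mem_Icc] at ht
    obtain ⟨⟨ht1, ht2⟩, hok, htu⟩ := ht
    have hfL : f t < L := by
      have : (f t : ℤ) < L := by
        rw [h1]
        rcases hε with rfl | rfl <;> linarith
      exact_mod_cast this
    -- the numbers
    have hm : ∀ r ∈ R, ((f t + (((ρ : ℤ) - ε * r).toNat + 1) : ℕ) : ℤ) = ε * (t - r) := by
      intro r hr
      have h2 := abs_le.1 (hρ r hr)
      have e2 : ((((ρ : ℤ) - ε * r).toNat : ℕ) : ℤ) = ρ - ε * r :=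
        Int.toNat_of_nonneg (by rcases hε with rfl | rfl <;> linarith)
      rw [Nat.cast_add, Nat.cast_add, Nat.cast_one, e2, h1]
      ring
    have hfac : ∀ r ∈ R, ∀ p : ℕ, p.Prime → p ∣ f t + (((ρ : ℤ) - ε * r).toNat + 1) →
        (y < p ∨ p ∈ S ∨ p ∣ W) := by
      intro r hr p hp hd
      by_contra hcon
      push Not at hcon
      obtain ⟨h3, h4, h5⟩ := hcon
      apply hok p hp h5 h3 h4 r hr
      have h6 := Int.natCast_dvd_natCast.2 hd
      rw [hm r hr] at h6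
      rcases hε with rfl | rfl
      · simpa using h6
      · have := h6.neg_right
        refine this.trans (dvd_of_eq ?_); ring
    have hle : ∀ r ∈ R, f t + (((ρ : ℤ) - ε * r).toNat + 1) ≤ M := by
      intro r hr
      have h2 := abs_le.1 (hρ r hr)
      have h3 : ((f t + (((ρ : ℤ) - ε * r).toNat + 1) : ℕ) : ℤ) ≤ L + ρ := by
        rw [hm r hr]
        rcases hε with rfl | rfl <;> linarith
      have h4 : f t + (((ρ : ℤ) - ε * r).toNat + 1) ≤ L + ρ := by exact_mod_cast h3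
      omega
    rw [mem_union]
    by_cases hall : ∃ r ∈ R, Sm (f t + (((ρ : ℤ) - ε * r).toNat + 1))
    · left
      obtain ⟨r, hr, hs⟩ := hall
      rw [mem_biUnion]
      refine ⟨r, hr, ?_⟩
      rw [mem_image]
      exact ⟨f t + (((ρ : ℤ) - ε * r).toNat + 1), mem_filter.2 ⟨mem_Icc.2 ⟨by omega, hle r hr⟩, hs⟩, by omega⟩
    · right
      push Not at hall
      rw [mem_filter, mem_range]
      refine ⟨hfL, fun p hp hWp hpL d hd => ?_⟩
      unfold Dsh at hd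
      rw [mem_image] at hd
      obtain ⟨r, hr, rfl⟩ := hd
      intro hdvd
      rcases hdich _ (by omega) (hle r hr) (hfac r hr) with h | h
      · exact hall r hr h
      · rcases h p hp hdvd with h' | h'
        · linarith
        · have := Nat.le_of_dvd hW h'
          omega
  rw [← card_image_of_injOn hinj]
  refine (card_le_card hsub).trans ((card_union_le _ _).trans ?_)
  refine Nat.add_le_add_right ?_ _
  refine card_biUnion_le.trans ?_
  calc ∑ r ∈ R, (((Finset.Icc 1 M).filter Sm).image (fun m => m - (((ρ : ℤ) - ε * r).toNat + 1))).card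
      ≤ ∑ r ∈ R, ((Finset.Icc 1 M).filter Sm).card := sum_le_sum fun r _ => card_image_le
    _ = _ := by rw [sum_const, smul_eq_mul]

/-- all the `t` which are not removed by the special classes -/
theorem card_ok (R : Finset ℤ) (hR : R.Nonempty) (W : ℕ) (hW : 1 ≤ W) : ∃ C : ℝ, 0 < C ∧ ∃ (ρ : ℕ) (x₀ : ℕ), 3 ≤ x₀ ∧
    ρ ≤ x₀ ∧
    ∀ (y : ℝ) (S : Finset ℕ) (L : ℕ) (_ : x₀ ≤ L) (_ : Real.sqrt L ≤ y) (Sm : ℕ → Prop)
    (_ : ∀ m : ℕ, 1 ≤ m → m ≤ 2 * L →
      (∀ p : ℕ, p.Prime → p ∣ m → (y < p ∨ p ∈ S ∨ p ∣ W)) → Sm m ∨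
        (∀ p : ℕ, p.Prime → p ∣ m → (y < p ∨ p ∣ W))),
    (((Finset.Icc (-(L : ℤ)) L).filter (fun t => Ok R W y S t)).card : ℝ) ≤
      2 * R.card * ((Finset.Icc 1 (2 * L)).filter Sm).card + C * L / (Real.log L) ^ R.card + (2 * ρ + 1) := by
  obtain ⟨ρ, hρ⟩ : ∃ ρ : ℕ, ∀ r ∈ R, |r| ≤ (ρ : ℤ) := by
    refine ⟨R.sup (fun r => r.natAbs), fun r hr => ?_⟩
    have h1 : r.natAbs ≤ R.sup (fun r => r.natAbs) := le_sup (f := fun r : ℤ => r.natAbs) hr
    have h2 : (r.natAbs : ℤ) = |r| := Int.natCast_natAbs r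
    rw [← h2]
    exact_mod_cast h1
  have hne1 : (Dsh R ρ 1).Nonempty := by
    unfold Dsh; exact hR.image _
  have hne2 : (Dsh R ρ (-1)).Nonempty := by
    unfold Dsh; exact hR.image _
  obtain ⟨C₁, hC₁, x₁, hx₁, h1⟩ := rough_shift (Dsh R ρ 1) hne1 W
  obtain ⟨C₂, hC₂, x₂, hx₂, h2⟩ := rough_shift (Dsh R ρ (-1)) hne2 W
  rw [Dsh_card R ρ hρ 1 (Or.inl rfl)] at h1
  rw [Dsh_card R ρ hρ (-1) (Or.inr rfl)] at h2
  refine ⟨C₁ + C₂, by positivity, ρ, max ρ (max x₁ x₂), by omega, le_max_left _ _, ?_⟩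
  intro y S L hL hLy Sm hdich
  have hLρ : ρ ≤ L := (le_max_left _ _).trans hL
  have h3 := card_side R W hW y S ρ hρ 1 (Or.inl rfl) L (2 * L) (by omega) hLy Sm hdich
  have h4 := card_side R W hW y S ρ hρ (-1) (Or.inr rfl) L (2 * L) (by omega) hLy Sm hdich
  have h5 := h1 L (by omega)
  have h6 := h2 L (by omega)
  have h7 : ((Finset.Icc (-(L : ℤ)) L).filter (fun t => |t| ≤ (ρ : ℤ))).card ≤ 2 * ρ + 1 := by
    have : (Finset.Icc (-(L : ℤ)) L).filter (fun t => |t| ≤ (ρ : ℤ)) ⊆ Finset.Icc (-(ρ : ℤ)) ρ := by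
      intro t ht
      rw [mem_filter] at ht
      exact mem_Icc.2 (abs_le.1 ht.2)
    have h8 := card_le_card this
    rw [Int.card_Icc] at h8
    omega
  have hsub : (Finset.Icc (-(L : ℤ)) L).filter (fun t => Ok R W y S t) ⊆
      (Finset.Icc (-(L : ℤ)) L).filter (fun t => Ok R W y S t ∧ (ρ : ℤ) < 1 * t) ∪
      (Finset.Icc (-(L : ℤ)) L).filter (fun t => Ok R W y S t ∧ (ρ : ℤ) < -1 * t) ∪
      (Finset.Icc (-(L : ℤ)) L).filter (fun t => |t| ≤ (ρ : ℤ)) := by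
    intro t ht
    rw [mem_filter] at ht
    rw [mem_union, mem_union, mem_filter, mem_filter, mem_filter]
    by_cases h : |t| ≤ (ρ : ℤ)
    · exact Or.inr ⟨ht.1, h⟩
    · left
      rw [not_le, lt_abs] at h
      rcases h with h | h
      · exact Or.inl ⟨ht.1, ht.2, by linarith⟩
      · exact Or.inr ⟨ht.1, ht.2, by linarith⟩
  have h8 := (card_le_card hsub).trans ((card_union_le _ _).trans (Nat.add_le_add_right (card_union_le _ _) _))
  have h9 : (((Finset.Icc (-(L : ℤ)) L).filter (fun t => Ok R W y S t)).card : ℝ) ≤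
      (((Finset.Icc (-(L : ℤ)) L).filter (fun t => Ok R W y S t ∧ (ρ : ℤ) < 1 * t)).card : ℝ) +
      (((Finset.Icc (-(L : ℤ)) L).filter (fun t => Ok R W y S t ∧ (ρ : ℤ) < -1 * t)).card : ℝ) +
      (((Finset.Icc (-(L : ℤ)) L).filter (fun t => |t| ≤ (ρ : ℤ))).card : ℝ) := by exact_mod_cast h8
  have h3' : (((Finset.Icc (-(L : ℤ)) L).filter (fun t => Ok R W y S t ∧ (ρ : ℤ) < 1 * t)).card : ℝ) ≤
      R.card * ((Finset.Icc 1 (2 * L)).filter Sm).card + C₁ * L / (Real.log L) ^ R.card := by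
    refine (Nat.cast_le.2 h3).trans ?_
    push_cast
    gcongr
  have h4' : (((Finset.Icc (-(L : ℤ)) L).filter (fun t => Ok R W y S t ∧ (ρ : ℤ) < -1 * t)).card : ℝ) ≤
      R.card * ((Finset.Icc 1 (2 * L)).filter Sm).card + C₂ * L / (Real.log L) ^ R.card := by
    refine (Nat.cast_le.2 h4).trans ?_
    push_cast
    gcongr
  have h7' : (((Finset.Icc (-(L : ℤ)) L).filter (fun t => |t| ≤ (ρ : ℤ))).card : ℝ) ≤ 2 * ρ + 1 := by
    exact_mod_cast h7
  have e : (C₁ + C₂) * L / (Real.log L) ^ R.card = C₁ * L / (Real.log L) ^ R.card +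
      C₂ * L / (Real.log L) ^ R.card := by ring
  rw [e]
  linarith

end Pool.Agent.N893.PG
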