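import Mathlib
import Pool.Agent.N893.PG.Surv

set_option autoImplicit false
set_option maxHeartbeats 4000000

/-! # Translates of the values of a polynomial without primes: the survivors, II -/

namespace Pool.Agent.N893.PG

open Finset Filter Pool.Agent.H318R2.Cr Pool.Agent.H398R2.RK Pool.Agent.N893.RK Pool.Agent.N893.CF

open scoped Classical

/-- a representative in `range p` -/
theorem exists_rep (p : ℕ) (hp : p.Prime) (t : ℤ) : ∃ s : ℕ, s < p ∧ (p : ℤ) ∣ t - s := by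
  have hpz : (0 : ℤ) < p := by exact_mod_cast hp.pos
  refine ⟨(t % p).toNat, ?_, ?_⟩
  · have := Int.emod_lt_of_pos t hpz
    have h2 := Int.emod_nonneg t hpz.ne'
    omega
  · rw [Int.toNat_of_nonneg (Int.emod_nonneg _ hpz.ne')]
    exact Int.dvd_self_sub_emod

theorem classes_one (G : ℤ → ℤ) (hG : ∀ s t : ℤ, t - s ∣ G t - G s) (p : ℕ) (hp : p.Prime) (t : ℤ) :
    ((range p).filter (fun s : ℕ => ¬ (p : ℤ) ∣ G t - G s)).card ≤ p - 1 := by
  obtain ⟨s₁, h1, h2⟩ := exists_rep p hp t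
  have hsub : (range p).filter (fun s : ℕ => ¬ (p : ℤ) ∣ G t - G s) ⊆ (range p).erase s₁ := by
    intro s hs
    rw [mem_filter] at hs
    rw [mem_erase]
    refine ⟨?_, hs.1⟩
    rintro rfl
    exact hs.2 (h2.trans (hG _ _))
  have h3 := card_le_card hsub
  rwa [card_erase_of_mem (mem_range.2 h1), card_range] at h3

theorem classes_two (G : ℤ → ℤ) (hG : ∀ s t : ℤ, t - s ∣ G t - G s) (m : ℤ) (hm : ∀ t, G (m - t) = G t)
    (p : ℕ) (hp : p.Prime) (t : ℤ) (ht : ¬ (p : ℤ) ∣ 2 * t - m) :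
    ((range p).filter (fun s : ℕ => ¬ (p : ℤ) ∣ G t - G s)).card ≤ p - 2 := by
  obtain ⟨s₁, h1, h2⟩ := exists_rep p hp t
  obtain ⟨s₂, h3, h4⟩ := exists_rep p hp (m - t)
  have hne : s₁ ≠ s₂ := by
    rintro rfl
    apply ht
    have := dvd_sub h2 h4
    refine this.trans (dvd_of_eq ?_)
    ring
  have hsub : (range p).filter (fun s : ℕ => ¬ (p : ℤ) ∣ G t - G s) ⊆ ((range p).erase s₁).erase s₂ := by
    intro s hs
    rw [mem_filter] at hs
    rw [mem_erase, mem_erase]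
    refine ⟨?_, ?_, hs.1⟩
    · rintro rfl
      apply hs.2
      have := h4.trans (hG _ _)
      rwa [hm t] at this
    · rintro rfl
      exact hs.2 (h2.trans (hG _ _))
  have h7 := card_le_card hsub
  rw [card_erase_of_mem (mem_erase.2 ⟨fun h => hne h.symm, mem_range.2 h3⟩), card_erase_of_mem (mem_range.2 h1),
    card_range] at h7
  omega

/-- Greedy choice for the primes of `S`, exponent `e`. -/
theorem greedy_e (e : ℕ) (S : Finset ℕ) (v₀ : ℝ) (hv₀ : 3 ≤ v₀) (hS : ∀ p ∈ S, p.Prime ∧ v₀ < (p : ℝ))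
    (R : Finset ℤ) (K : ℕ → ℕ → ℤ → Prop) (N : ℤ → ℤ)
    (hK : ∀ p ∈ S, ∀ t ∈ R, ¬ (p : ℤ) ∣ N t →
      (((range p).filter (fun s => ¬ K p s t)).card : ℝ) ≤ (1 - 1 / (p : ℝ)) ^ e * p)
    (hN : ∀ t ∈ R, N t ≠ 0 → 4 * Real.log (N t).natAbs ≤ v₀) :
    ∃ s : ℕ → ℕ, ((R.filter (fun t => ∀ p ∈ S, ¬ K p (s p) t)).card : ℝ) ≤
      R.card * (3 * ∏ p ∈ S, (1 - 1 / (p : ℝ))) ^ e + (R.filter (fun t => N t = 0)).card := by
  set w : ℕ → ℤ → ℝ := fun p t => if (p : ℤ) ∣ N t then 1 else (1 - 1 / (p : ℝ)) ^ e with hw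
  have hq : ∀ p ∈ S, 0 ≤ 1 - 1 / (p : ℝ) := fun p hp => (one_sub_inv_pos (hS p hp).1).le
  have hw0 : ∀ p ∈ S, ∀ t, 0 ≤ w p t := by
    intro p hp t
    simp only [hw]
    split_ifs
    · norm_num
    · exact pow_nonneg (hq p hp) e
  obtain ⟨s, _, hsc⟩ := greedy_abs S K (fun p => p) w (fun p hp => (hS p hp).1.pos) hw0 R (by
      intro p hp t ht
      by_cases hNt : (p : ℤ) ∣ N t
      · simp only [hw, if_pos hNt, one_mul]
        have := card_filter_le (range p) (fun c : ℕ => ¬ K p c t)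
        rw [card_range] at this
        exact_mod_cast this
      · simp only [hw, if_neg hNt]
        have := hK p hp t ht hNt
        convert this)
  refine ⟨s, ?_⟩
  have hsc' : ((R.filter (fun t => ∀ p ∈ S, ¬ K p (s p) t)).card : ℝ) ≤ ∑ t ∈ R, ∏ p ∈ S, w p t := by convert hsc
  refine hsc'.trans ?_
  set Pr := ∏ p ∈ S, (1 - 1 / (p : ℝ)) with hPr
  have hP0 : 0 ≤ Pr := prod_nonneg hq
  have hterm : ∀ t ∈ R, N t ≠ 0 → ∏ p ∈ S, w p t ≤ (3 * Pr) ^ e := by
    intro t ht hNt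
    set k : ℕ := (N t).natAbs with hk
    have hk1 : 1 ≤ k := Int.natAbs_pos.2 hNt
    have e1 : ∏ p ∈ S, w p t ≤ ∏ p ∈ S.filter (fun p => ¬ p ∣ k), (1 - 1 / (p : ℝ)) ^ e := by
      rw [prod_filter]
      apply Finset.prod_le_prod (fun p hp => hw0 p hp t)
      intro p hp
      have hiff : (p : ℤ) ∣ N t ↔ p ∣ k := Int.natCast_dvd
      simp only [hw]
      by_cases h : p ∣ k
      · rw [if_pos (hiff.2 h), if_neg (by simpa using h)]
      · rw [if_neg (fun h' => h (hiff.1 h')), if_pos h]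
    have e2 := prod_ndvd S v₀ hv₀ hS k hk1
    have e3 : Real.exp (4 * Real.log k / v₀) ≤ 3 := by
      have h8 : 4 * Real.log k / v₀ ≤ 1 := by
        rw [div_le_one (by linarith)]
        exact hN t ht hNt
      calc Real.exp (4 * Real.log k / v₀) ≤ Real.exp 1 := Real.exp_le_exp.2 h8
        _ ≤ 3 := by have := Real.exp_one_lt_d9; linarith
    rw [Finset.prod_pow] at e1
    refine e1.trans ?_
    have e4 : 0 ≤ ∏ p ∈ S.filter (fun p => ¬ p ∣ k), (1 - 1 / (p : ℝ)) :=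
      prod_nonneg fun p hp => hq p (mem_filter.1 hp).1
    apply pow_le_pow_left₀ e4
    calc ∏ p ∈ S.filter (fun p => ¬ p ∣ k), (1 - 1 / (p : ℝ)) ≤ Pr * Real.exp (4 * Real.log k / v₀) := e2
      _ ≤ Pr * 3 := mul_le_mul_of_nonneg_left e3 hP0
      _ = 3 * Pr := by ring
  have hone : ∀ t, ∏ p ∈ S, w p t ≤ 1 := by
    intro t
    apply Finset.prod_le_one (fun p hp => hw0 p hp t)
    intro p hp
    simp only [hw]
    split_ifs
    · exact le_rfl
    · apply pow_le_one₀ (hq p hp)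
      have : (0 : ℝ) ≤ 1 / p := by positivity
      linarith
  rw [← sum_filter_add_sum_filter_not R (fun t => N t = 0)]
  have e1 : ∑ t ∈ R.filter (fun t => N t = 0), ∏ p ∈ S, w p t ≤ (R.filter (fun t => N t = 0)).card := by
    calc ∑ t ∈ R.filter (fun t => N t = 0), ∏ p ∈ S, w p t
        ≤ ∑ t ∈ R.filter (fun t => N t = 0), (1 : ℝ) := sum_le_sum fun t _ => hone t
      _ = (R.filter (fun t => N t = 0)).card := by rw [sum_const, nsmul_eq_mul, mul_one]
  have e2 : ∑ t ∈ R.filter (fun t => ¬ N t = 0), ∏ p ∈ S, w p t ≤ R.card * (3 * Pr) ^ e := by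
    calc ∑ t ∈ R.filter (fun t => ¬ N t = 0), ∏ p ∈ S, w p t
        ≤ ∑ t ∈ R.filter (fun t => ¬ N t = 0), (3 * Pr) ^ e :=
          sum_le_sum fun t ht => hterm t (mem_filter.1 ht).1 (mem_filter.1 ht).2
      _ = (R.filter (fun t => ¬ N t = 0)).card * (3 * Pr) ^ e := by rw [sum_const, nsmul_eq_mul]
      _ ≤ _ := by
          apply mul_le_mul_of_nonneg_right _ (by positivity)
          exact_mod_cast card_le_card (filter_subset _ _)
  linarith

/-- The survivors of the sieve by the primes up to `y`. -/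
theorem survivors_pg (G : ℤ → ℤ) (hG : ∀ s t : ℤ, t - s ∣ G t - G s) (R : Finset ℤ) (hR : R.Nonempty)
    (W : ℕ) (hW : 1 ≤ W) (e : ℕ) (he : e = 1 ∨ (e = 2 ∧ ∃ m : ℤ, ∀ t, G (m - t) = G t)) :
    ∃ C : ℝ, 0 < C ∧ ∃ y₀ : ℝ, ∀ y : ℝ, y₀ ≤ y → ∀ L : ℕ, y ≤ L → (L : ℝ) ≤ y * (Real.log y) ^ (R.card + e) →
    ∃ (S : Finset ℕ) (s : ℕ → ℕ), (∀ p ∈ S, p.Prime ∧ ¬ p ∣ W ∧ (p : ℝ) ≤ y) ∧
      (((Finset.Icc (-(L : ℤ)) L).filter (fun t => Ok R W y S t ∧
        ∀ p ∈ S, ¬ (p : ℤ) ∣ G t - G (s p))).card : ℝ) ≤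
      C * L * (Real.log (Real.log y)) ^ (2 * e) /
        ((Real.log y) ^ (R.card + e) * (Real.log (Real.log (Real.log y))) ^ e) := by
  obtain ⟨m₀, N, hNeq, hcls⟩ : ∃ (m₀ : ℤ) (N : ℤ → ℤ), (∀ t, N t = 1 ∨ N t = 2 * t - m₀) ∧
      ((∀ t, N t = 1) ∨ (∀ t, N t = 2 * t - m₀)) ∧ 
      (∀ p : ℕ, p.Prime → ∀ t, ¬ (p : ℤ) ∣ N t →
        (((range p).filter (fun s : ℕ => ¬ (p : ℤ) ∣ G t - G s)).card : ℝ) ≤ (1 - 1 / (p : ℝ)) ^ e * p) := by
    rcases he with rfl | ⟨rfl, m, hm⟩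
    · refine ⟨0, fun _ => 1, fun t => Or.inl rfl, Or.inl fun t => rfl, fun p hp t _ => ?_⟩
      have h1 := classes_one G hG p hp t
      have hp0 : (p : ℝ) ≠ 0 := by exact_mod_cast hp.ne_zero
      have e1 : (1 - 1 / (p : ℝ)) ^ 1 * p = ((p - 1 : ℕ) : ℝ) := by
        rw [Nat.cast_sub hp.one_le, pow_one]; field_simp; simp
      rw [e1]
      exact_mod_cast h1
    · refine ⟨m, fun t => 2 * t - m, fun t => Or.inr rfl, Or.inr fun t => rfl, fun p hp t ht => ?_⟩
      have h1 := classes_two G hG m hm p hp t ht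
      have hp0 : (p : ℝ) ≠ 0 := by exact_mod_cast hp.ne_zero
      have hp0' : (0 : ℝ) < p := by exact_mod_cast hp.pos
      have e1 : ((p - 2 : ℕ) : ℝ) ≤ (1 - 1 / (p : ℝ)) ^ 2 * p := by
        rw [Nat.cast_sub hp.two_le]
        have e2 : (1 - 1 / (p : ℝ)) ^ 2 * p = p - 2 + 1 / p := by field_simp; ring
        rw [e2]
        have : 0 < 1 / (p : ℝ) := by positivity
        push_cast
        linarith
      refine le_trans ?_ e1
      exact_mod_cast h1
  obtain ⟨hcase, hcls⟩ := hcls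
  have he1 : 1 ≤ e := by rcases he with rfl | ⟨rfl, _⟩ <;> norm_num
  have he2 : e ≤ 2 := by rcases he with rfl | ⟨rfl, _⟩ <;> norm_num
  obtain ⟨κ, hκ⟩ : ∃ κ : ℕ, κ = R.card := ⟨_, rfl⟩
  have hκ1 : 1 ≤ κ := by rw [hκ]; exact card_pos.2 hR
  set B : ℕ := κ + e + 2 with hB
  obtain ⟨C, hC, y₁, hy₁2, hR2⟩ := rankin2 B (by omega) W hW
  obtain ⟨Co, hCo, ρ, x₀, hx₀3, hρx, hok⟩ := card_ok R hR W hW
  simp only [← hκ] at hok ⊢
  obtain ⟨t₀, hev⟩ := ev_exp B 1 one_pos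
  refine ⟨(4 * κ + Co + (2 * ρ + 1)) * (3 * C) ^ e + 1, by positivity,
    max y₁ (max (Real.exp (Real.exp t₀)) (max (Real.exp (x₀ + W + 4)) (Real.exp (|(m₀ : ℝ)| + 4)))),
    fun y hy L hyL hLy => ?_⟩
  obtain ⟨S, hS, hprod, hsm, hdich⟩ := hR2 y ((le_max_left _ _).trans hy)
  have hy' := (le_max_left _ _).trans ((le_max_right _ _).trans hy)
  have hy'' := (le_max_left _ _).trans ((le_max_right _ _).trans ((le_max_right _ _).trans hy))
  have hy''' := (le_max_right _ _).trans ((le_max_right _ _).trans ((le_max_right _ _).trans hy))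
  have hy0 : 0 < y := (Real.exp_pos _).trans_le hy'
  have hL1' : Real.exp t₀ ≤ Real.log y := by
    rw [← Real.log_exp (Real.exp t₀)]; exact Real.log_le_log (Real.exp_pos _) hy'
  have hlx : (x₀ : ℝ) + W + 4 ≤ Real.log y := by
    rw [← Real.log_exp ((x₀ : ℝ) + W + 4)]; exact Real.log_le_log (Real.exp_pos _) hy''
  have hlm : |(m₀ : ℝ)| + 4 ≤ Real.log y := by
    rw [← Real.log_exp (|(m₀ : ℝ)| + 4)]; exact Real.log_le_log (Real.exp_pos _) hy'''
  have hly : 0 < Real.log y := (Real.exp_pos _).trans_le hL1'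
  set t := Real.log (Real.log y) with ht
  have htt : t₀ ≤ t := by
    rw [← Real.log_exp t₀]; exact Real.log_le_log (Real.exp_pos _) hL1'
  obtain ⟨h1, h2, h5, h3, h4, _⟩ := hev t htt
  have hLe : Real.log y = Real.exp t := by rw [ht, Real.exp_log hly]
  have hye : y = Real.exp (Real.exp t) := by rw [← hLe, Real.exp_log hy0]
  have hly100 : 100 ≤ Real.log y := by rw [hLe]; exact h4
  have hly1 : 1 ≤ Real.log y := by linarith
  have hylog : Real.log y ≤ y := by
    have := Real.log_le_sub_one_of_pos hy0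
    linarith
  have hy100 : 100 ≤ y := by linarith
  have hL0 : (0 : ℝ) < L := by linarith
  have ht0 : 0 < t := by linarith
  have hlt0 : 0 < Real.log t := by linarith
  have hW0 : (0 : ℝ) ≤ W := Nat.cast_nonneg _
  have hx00 : (0 : ℝ) ≤ x₀ := Nat.cast_nonneg _
  have hκr : (1 : ℝ) ≤ κ := by exact_mod_cast hκ1
  have hBr : (B : ℝ) = κ + e + 2 := by rw [hB]; push_cast; ring
  have her : (1 : ℝ) ≤ e := by exact_mod_cast he1
  set v₀ : ℝ := Real.log y ^ B with hv₀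
  -- powers of the logarithm
  have hpow_y : ∀ j : ℕ, j ≤ B → Real.log y ^ j ≤ y := by
    intro j hj
    rw [hye, Real.log_exp, ← Real.exp_nat_mul]
    apply Real.exp_le_exp.2
    refine le_trans ?_ h3
    have hjr : (j : ℝ) ≤ B := by exact_mod_cast hj
    have hB0 : (0 : ℝ) ≤ B := Nat.cast_nonneg _
    have e1 : (j : ℝ) * t ≤ B * t ^ 2 := by
      have : t ≤ t ^ 2 := by nlinarith
      exact mul_le_mul hjr this ht0.le hB0
    have e2 : (B : ℝ) ≤ (B + 5 : ℝ) * 20 * (B + 5) := by nlinarith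
    exact e1.trans (mul_le_mul_of_nonneg_right e2 (by positivity))
  have hv₀big : 100 * Real.log y ≤ v₀ := by
    calc 100 * Real.log y ≤ Real.log y * Real.log y := by gcongr
      _ = Real.log y ^ 2 := by ring
      _ ≤ v₀ := pow_le_pow_right₀ hly1 (by omega)
  have hv3 : 3 ≤ v₀ := by linarith
  have hSW : ∀ p ∈ S, ¬ p ∣ W := by
    intro p hp hd
    have h6 := Nat.le_of_dvd hW hd
    have h7 : (p : ℝ) ≤ W := by exact_mod_cast h6
    have h8 := (hS p hp).2.1
    linarith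
  -- sizes
  have hLx₀ : x₀ ≤ L := by
    have : (x₀ : ℝ) ≤ L := by linarith
    exact_mod_cast this
  have hLv : (L : ℝ) * 4 ≤ y * v₀ := by
    calc (L : ℝ) * 4 ≤ (y * Real.log y ^ (κ + e)) * (Real.log y ^ 2) := by
          have h6 : (4 : ℝ) ≤ Real.log y ^ 2 := by nlinarith
          gcongr
      _ = y * v₀ := by rw [hv₀, hB, pow_add]; ring
  have hLysq : Real.sqrt L ≤ y := by
    rw [Real.sqrt_le_left hy0.le]
    calc (L : ℝ) ≤ y * Real.log y ^ (κ + e) := hLy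
      _ ≤ y * y := mul_le_mul_of_nonneg_left (hpow_y _ (by omega)) hy0.le
      _ = y ^ 2 := by ring
  have h2L : ((2 * L : ℕ) : ℝ) = 2 * L := by push_cast; ring
  -- R'
  obtain ⟨R', hR'⟩ : ∃ R' : Finset ℤ, R' = (Finset.Icc (-(L : ℤ)) L).filter (fun t => Ok R W y S t) := ⟨_, rfl⟩
  have hcok := hok y S L hLx₀ hLysq (Smo (2 * ((B : ℕ) + 2)) y) (fun m hm1 hmM hfac =>
    hdich m hm1 (by
      have h6 : (m : ℝ) ≤ 2 * L := by rw [← h2L]; exact_mod_cast hmM
      linarith) hfac)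
  have hsm2 := hsm (2 * L) (by rw [h2L]; linarith)
  obtain ⟨A1, hA1⟩ : ∃ A1 : Finset ℕ, A1 = (Finset.Icc 1 (2 * L)).filter (Smo (2 * ((B : ℕ) + 2)) y) := ⟨_, rfl⟩
  rw [← hR', ← hA1] at hcok
  have hA1c : (A1.card : ℝ) ≤ 2 * L / Real.log y ^ B := by
    rw [hA1, ← h2L]; convert hsm2
  have hRcard : (R'.card : ℝ) ≤ (4 * κ + Co + (2 * ρ + 1)) * L / Real.log y ^ κ := by
    have h10 : Co * (L : ℝ) / (Real.log L) ^ κ ≤ Co * L / Real.log y ^ κ := by
      apply div_le_div_of_nonneg_left (by positivity) (by positivity)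
      apply pow_le_pow_left₀ hly.le
      exact Real.log_le_log hy0 hyL
    have h11 : 2 * (L : ℝ) / (Real.log y) ^ B ≤ 2 * L / Real.log y ^ κ := by
      apply div_le_div_of_nonneg_left (by positivity) (by positivity)
      exact pow_le_pow_right₀ hly1 (by omega)
    have h12 : (1 : ℝ) ≤ L / Real.log y ^ κ := by
      rw [one_le_div (by positivity)]
      exact (hpow_y κ (by omega)).trans hyL
    have h14 : (2 * ρ + 1 : ℝ) ≤ (2 * ρ + 1) * (L / Real.log y ^ κ) :=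
      le_mul_of_one_le_right (by positivity) h12
    have h15 : (4 * κ + Co + (2 * ρ + 1)) * L / Real.log y ^ κ =
        2 * κ * (2 * L / Real.log y ^ κ) + Co * L / Real.log y ^ κ + (2 * ρ + 1) * (L / Real.log y ^ κ) := by
      ring
    have h16 : 2 * (κ : ℝ) * A1.card ≤ 2 * κ * (2 * L / Real.log y ^ κ) :=
      mul_le_mul_of_nonneg_left (hA1c.trans h11) (by positivity)
    rw [h15]
    linarith
  -- the values of N
  have hNlog : ∀ t ∈ R', N t ≠ 0 → 4 * Real.log (N t).natAbs ≤ v₀ := by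
    intro r hr hNr
    refine le_trans ?_ hv₀big
    have hk1 : 1 ≤ (N r).natAbs := Int.natAbs_pos.2 hNr
    have hk0 : (0 : ℝ) < ((N r).natAbs : ℕ) := by exact_mod_cast hk1
    have h8 : (((N r).natAbs : ℕ) : ℝ) ≤ y ^ 3 := by
      have h9 : (((N r).natAbs : ℕ) : ℝ) ≤ 2 * L + |(m₀ : ℝ)| + 1 := by
        have h10 : (((N r).natAbs : ℕ) : ℝ) = |((N r : ℤ) : ℝ)| := by rw [Nat.cast_natAbs]; push_cast; rfl
        rw [h10]
        rcases hNeq r with h | h
        · rw [h]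
          have := abs_nonneg (m₀ : ℝ)
          simp only [Int.cast_one, abs_one]
          linarith
        · rw [h]
          push_cast
          rw [hR', mem_filter, mem_Icc] at hr
          have hr1 : (-(L : ℝ)) ≤ r := by exact_mod_cast hr.1.1
          have hr2 : (r : ℝ) ≤ L := by exact_mod_cast hr.1.2
          have hm1 := le_abs_self (m₀ : ℝ)
          have hm2 := neg_abs_le (m₀ : ℝ)
          rw [abs_le]
          constructor <;> linarith
      have h11 : (L : ℝ) ≤ y * y :=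
        hLy.trans (mul_le_mul_of_nonneg_left (hpow_y _ (by omega)) hy0.le)
      have h12 : |(m₀ : ℝ)| + 1 ≤ y := by linarith
      have h13 : y * y * 100 ≤ y ^ 3 := by
        have : y ^ 3 = y * y * y := by ring
        rw [this]
        gcongr
      nlinarith
    have h10 : Real.log ((N r).natAbs : ℕ) ≤ Real.log (y ^ 3) := Real.log_le_log hk0 h8
    rw [Real.log_pow] at h10
    push_cast at h10
    linarith
  have hNzero : (((R'.filter (fun t => N t = 0)).card : ℕ) : ℝ) ≤ 1 := by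
    have : (R'.filter (fun t => N t = 0)).card ≤ 1 := by
      rw [card_le_one]
      intro r hr r' hr'
      rw [mem_filter] at hr hr'
      rcases hcase with h | h
      · rw [h r] at hr
        exact absurd hr.2 one_ne_zero
      · have g1 := hr.2
        have g2 := hr'.2
        rw [h r] at g1
        rw [h r'] at g2
        linarith
    exact_mod_cast this
  obtain ⟨s, hs⟩ := greedy_e e S v₀ hv3 (fun p hp => ⟨(hS p hp).1, (hS p hp).2.1⟩) R'
    (fun (p c : ℕ) (t : ℤ) => (p : ℤ) ∣ G t - G c) N (fun p hp t _ hNt => by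
      have := hcls p (hS p hp).1 t hNt
      convert this) hNlog
  refine ⟨S, s, fun p hp => ⟨(hS p hp).1, hSW p hp, (hS p hp).2.2⟩, ?_⟩
  have hsub1 : (Finset.Icc (-(L : ℤ)) L).filter (fun t => Ok R W y S t ∧
        ∀ p ∈ S, ¬ (p : ℤ) ∣ G t - G (s p)) ⊆
      R'.filter (fun t => ∀ p ∈ S, ¬ (p : ℤ) ∣ G t - G (s p)) := by
    intro t ht
    rw [mem_filter] at ht
    rw [mem_filter, hR', mem_filter]
    exact ⟨⟨ht.1, ht.2.1⟩, ht.2.2⟩
  have hs' : ((R'.filter (fun t => ∀ p ∈ S, ¬ (p : ℤ) ∣ G t - G (s p))).card : ℝ) ≤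
      R'.card * (3 * ∏ p ∈ S, (1 - 1 / (p : ℝ))) ^ e + ((R'.filter (fun t => N t = 0)).card : ℕ) := by convert hs
  refine (Nat.cast_le.2 (card_le_card hsub1)).trans (hs'.trans ?_)
  have hPr0 : 0 ≤ ∏ p ∈ S, (1 - 1 / (p : ℝ)) :=
    prod_nonneg fun p hp => (one_sub_inv_pos (hS p hp).1).le
  have hfin1 : R'.card * (3 * ∏ p ∈ S, (1 - 1 / (p : ℝ))) ^ e ≤
      ((4 * κ + Co + (2 * ρ + 1)) * (3 * C) ^ e) * (L * t ^ (2 * e) /
        (Real.log y ^ (κ + e) * Real.log t ^ e)) := by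
    calc R'.card * (3 * ∏ p ∈ S, (1 - 1 / (p : ℝ))) ^ e
        ≤ ((4 * κ + Co + (2 * ρ + 1)) * L / Real.log y ^ κ) *
          (3 * (C * (t ^ 2 / (Real.log y * Real.log t)))) ^ e := by
          apply mul_le_mul hRcard _ (by positivity) (by positivity)
          apply pow_le_pow_left₀ (by positivity)
          exact mul_le_mul_of_nonneg_left hprod (by norm_num)
      _ = _ := by
        have e1 : 3 * (C * (t ^ 2 / (Real.log y * Real.log t))) = (3 * C) * t ^ 2 / (Real.log y * Real.log t) := by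
          ring
        rw [e1, div_pow, mul_pow (3 * C) (t ^ 2), mul_pow (Real.log y), ← pow_mul, pow_add]
        have := hly.ne'
        have := hlt0.ne'
        field_simp
  have hfin2 : 1 ≤ L * t ^ (2 * e) / (Real.log y ^ (κ + e) * Real.log t ^ e) := by
    rw [one_le_div (by positivity)]
    have h14 : Real.log t ^ e ≤ t ^ (2 * e) := by
      calc Real.log t ^ e ≤ t ^ e := pow_le_pow_left₀ hlt0.le h5 e
        _ ≤ t ^ (2 * e) := pow_le_pow_right₀ h1 (by omega)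
    exact mul_le_mul ((hpow_y _ (by omega)).trans hyL) h14 (by positivity) hL0.le
  have e3 : ((4 * κ + Co + (2 * ρ + 1)) * (3 * C) ^ e + 1) * L * t ^ (2 * e) /
      (Real.log y ^ (κ + e) * Real.log t ^ e) = ((4 * κ + Co + (2 * ρ + 1)) * (3 * C) ^ e) * (L * t ^ (2 * e) /
      (Real.log y ^ (κ + e) * Real.log t ^ e)) + L * t ^ (2 * e) / (Real.log y ^ (κ + e) * Real.log t ^ e) := by
    ring
  rw [e3]
  linarith

end Pool.Agent.N893.PG
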