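import Mathlib
import Pool.Agent.N893.PG.Surv2
import Pool.Agent.N893.CF.Fin
import Pool.Agent.N893.RK.Asm

set_option autoImplicit false
set_option maxHeartbeats 4000000

/-! # Translates of the values of a polynomial without primes: the assembly -/

namespace Pool.Agent.N893.PG

open Finset Filter Pool.Agent.N893.QA Pool.Agent.N893.RK Pool.Agent.N893.CF

open scoped Classical

theorem poly_growth (G : Polynomial ℤ) : ∃ K : ℕ, ∀ t : ℤ, |G.eval t| ≤ K * (|t| + 1) ^ K := by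
  induction G using Polynomial.induction_on' with
  | add p q hp hq =>
    obtain ⟨K₁, h₁⟩ := hp
    obtain ⟨K₂, h₂⟩ := hq
    refine ⟨K₁ + K₂, fun t => ?_⟩
    rw [Polynomial.eval_add]
    have hx : 1 ≤ |t| + 1 := by have := abs_nonneg t; linarith
    have e1 : (|t| + 1) ^ K₁ ≤ (|t| + 1) ^ (K₁ + K₂) := pow_le_pow_right₀ hx (by omega)
    have e2 : (|t| + 1) ^ K₂ ≤ (|t| + 1) ^ (K₁ + K₂) := pow_le_pow_right₀ hx (by omega)
    have e3 : (K₁ : ℤ) * (|t| + 1) ^ K₁ ≤ K₁ * (|t| + 1) ^ (K₁ + K₂) := mul_le_mul_of_nonneg_left e1 (by positivity)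
    have e4 : (K₂ : ℤ) * (|t| + 1) ^ K₂ ≤ K₂ * (|t| + 1) ^ (K₁ + K₂) := mul_le_mul_of_nonneg_left e2 (by positivity)
    have e5 := abs_add_le (p.eval t) (q.eval t)
    have e6 := h₁ t
    have e7 := h₂ t
    push_cast
    rw [add_mul]
    linarith
  | monomial n a =>
    refine ⟨a.natAbs + n, fun t => ?_⟩
    rw [Polynomial.eval_monomial, abs_mul, abs_pow]
    have hx : 1 ≤ |t| + 1 := by have := abs_nonneg t; linarith
    have e1 : |t| ^ n ≤ (|t| + 1) ^ n := pow_le_pow_left₀ (abs_nonneg _) (by linarith) n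
    have e2 : (|t| + 1) ^ n ≤ (|t| + 1) ^ (a.natAbs + n) := pow_le_pow_right₀ hx (by omega)
    have e3 : |a| ≤ ((a.natAbs + n : ℕ) : ℤ) := by
      push_cast
      have : (0 : ℤ) ≤ n := by positivity
      linarith
    exact mul_le_mul e3 (e1.trans e2) (pow_nonneg (abs_nonneg _) _) (by positivity)

/-- the iterated logarithms do not feel a constant factor -/
theorem scale_F (δ : ℝ) (hδ : 0 < δ) (hδ1 : δ ≤ 1) (e₁ e₂ e₃ : ℕ) : ∃ X₀ : ℝ, ∀ X : ℝ, X₀ ≤ X →
    Real.log X * (Real.log (Real.log X)) ^ e₁ * (Real.log (Real.log (Real.log (Real.log X)))) ^ e₂ /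
        (Real.log (Real.log (Real.log X))) ^ e₃ ≤
      2 ^ (1 + e₁ + e₂) * (Real.log (δ * X) * (Real.log (Real.log (δ * X))) ^ e₁ *
        (Real.log (Real.log (Real.log (Real.log (δ * X))))) ^ e₂ /
          (Real.log (Real.log (Real.log (δ * X)))) ^ e₃) := by
  obtain ⟨x₀, hhalf⟩ := ev_log_half
  have hlog1 := Real.tendsto_log_atTop
  have hl2 := hlog1.comp hlog1
  have hl3 := hlog1.comp hl2
  have hl4 := hlog1.comp hl3
  have hall := (((((hlog1.eventually_ge_atTop (max x₀ (max 20 (2 * Real.log (1 / δ))))).and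
    (hl2.eventually_ge_atTop (max x₀ 20))).and
    (hl3.eventually_ge_atTop (max x₀ 20))).and (hl4.eventually_ge_atTop 20)).and
    (eventually_ge_atTop (1 : ℝ)))
  obtain ⟨X₀, hX₀⟩ := eventually_atTop.1 hall
  refine ⟨X₀, fun X hX => ?_⟩
  obtain ⟨⟨⟨⟨g1, g2⟩, g3⟩, g4⟩, g5⟩ := hX₀ X hX
  simp only [Function.comp_apply] at g2 g3 g4
  simp only [max_le_iff] at g1 g2 g3
  obtain ⟨g1a, g1b, g1c⟩ := g1
  obtain ⟨g2a, g2b⟩ := g2
  obtain ⟨g3a, g3b⟩ := g3
  set L1 := Real.log X with hL1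
  set L2 := Real.log L1 with hL2
  set L3 := Real.log L2 with hL3
  set L4 := Real.log L3 with hL4
  have hX0 : 0 < X := by linarith
  have h1 : L1 / 2 ≤ Real.log (δ * X) := by
    rw [Real.log_mul hδ.ne' hX0.ne']
    have : Real.log (1 / δ) = - Real.log δ := by rw [one_div, Real.log_inv]
    rw [this] at g1c
    linarith
  have h1' : Real.log (δ * X) ≤ L1 := Real.log_le_log (by positivity) (by nlinarith)
  set l1 := Real.log (δ * X) with hl1
  have h2 : L2 / 2 ≤ Real.log l1 := (hhalf L1 g1a).2 l1 (by linarith)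
  have h2' : Real.log l1 ≤ L2 := Real.log_le_log (by linarith) h1'
  set l2 := Real.log l1 with hl2
  have h3 : L3 / 2 ≤ Real.log l2 := (hhalf L2 g2a).2 l2 (by linarith)
  have h3' : Real.log l2 ≤ L3 := Real.log_le_log (by linarith) h2'
  set l3 := Real.log l2 with hl3
  have h4 : L4 / 2 ≤ Real.log l3 := (hhalf L3 g3a).2 l3 (by linarith)
  have h4' : Real.log l3 ≤ L4 := Real.log_le_log (by linarith) h3'
  set l4 := Real.log l3 with hl4
  have k1 : 0 < l1 := by linarith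
  have k2 : 0 < l2 := by linarith
  have k3 : 0 < l3 := by linarith
  have k4 : 0 < l4 := by linarith
  have e : 2 ^ (1 + e₁ + e₂) * (l1 * l2 ^ e₁ * l4 ^ e₂ / l3 ^ e₃) =
      (2 * l1) * (2 * l2) ^ e₁ * (2 * l4) ^ e₂ / l3 ^ e₃ := by
    rw [mul_pow, mul_pow, pow_add, pow_add, pow_one]
    ring
  rw [e]
  have hL4p : 0 ≤ L4 := by linarith
  have hL2p : 0 ≤ L2 := by linarith
  have hL1p : 0 ≤ L1 := by linarith
  apply div_le_div₀ (by positivity) _ (by positivity) (pow_le_pow_left₀ k3.le h3' _)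
  apply mul_le_mul _ _ (by positivity) (by positivity)
  · apply mul_le_mul (by linarith) _ (by positivity) (by positivity)
    exact pow_le_pow_left₀ hL2p (by linarith) _
  · exact pow_le_pow_left₀ hL4p (by linarith) _

theorem main (G : ℤ → ℤ) (hG : ∀ s t : ℤ, t - s ∣ G t - G s) (hgr : ∃ K : ℕ, ∀ t : ℤ, |G t| ≤ K * (|t| + 1) ^ K)
    (R : Finset ℤ) (hR : R.Nonempty) (C₀ : ℤ) (hRC : ∀ r ∈ R, G r = C₀)
    (W : ℕ) (hW : 1 ≤ W) (a₀ : ℤ) (e : ℕ) (he : e = 1 ∨ (e = 2 ∧ ∃ m : ℤ, ∀ t, G (m - t) = G t)) :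
    ∃ c : ℝ, 0 < c ∧ ∃ X₀ : ℝ, ∀ X : ℝ, X₀ ≤ X → ∀ z : ℤ,
      ∃ a : ℤ, (z : ℝ) < a ∧ (a : ℝ) ≤ z + X ∧ (W : ℤ) ∣ a - a₀ ∧
        ∀ t : ℤ, |(t : ℝ)| ≤ c * (Real.log X * (Real.log (Real.log X)) ^ (R.card + e) *
          (Real.log (Real.log (Real.log (Real.log X)))) ^ e /
            (Real.log (Real.log (Real.log X))) ^ (2 * e)) →
        ¬ Prime (G t + a) := by
  obtain ⟨C, hC, y₀, hsv⟩ := survivors_pg G hG R hR W hW e he
  have he1 : 1 ≤ e := by rcases he with rfl | ⟨rfl, _⟩ <;> norm_num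
  obtain ⟨V, hV⟩ : ∃ V : ℕ → Finset ℤ, ∀ n : ℕ, V n = ({a₀ + G n, a₀ + G (-(n : ℤ))} : Finset ℤ) :=
    ⟨fun n => {a₀ + G n, a₀ + G (-(n : ℤ))}, fun n => rfl⟩
  have hmem : ∀ t : ℤ, a₀ + G t ∈ V t.natAbs := by
    intro t
    rw [hV]
    simp only [mem_insert, mem_singleton]
    rcases Int.natAbs_eq t with h | h
    · left; rw [← h]
    · right; rw [← h]
  have hVmem : ∀ (n : ℕ) (v : ℤ), v ∈ V n → ∃ t : ℤ, t.natAbs = n ∧ v = a₀ + G t := by
    intro n v hv
    rw [hV] at hv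
    simp only [mem_insert, mem_singleton] at hv
    rcases hv with h | h
    · exact ⟨n, by simp, h⟩
    · exact ⟨-n, by simp, h⟩
  have hVc : ∀ n, (V n).card ≤ 2 := by
    intro n
    rw [hV]
    exact card_le_two
  obtain ⟨K, hK⟩ := hgr
  have hVb : ∀ n, ∀ v ∈ V n, |v| ≤ ((K + a₀.natAbs : ℕ) : ℤ) * ((n : ℤ) + 1) ^ (K + a₀.natAbs) := by
    intro n v hv
    obtain ⟨t, ht, rfl⟩ := hVmem n v hv
    have h1 := hK t
    have h2 : |t| = (n : ℤ) := by rw [← ht]; exact (Int.natCast_natAbs t).symm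
    rw [h2] at h1
    have h3 := abs_add_le a₀ (G t)
    have hx : (1 : ℤ) ≤ (n : ℤ) + 1 := by have : (0 : ℤ) ≤ n := by positivity
                                          linarith
    have e1 : ((n : ℤ) + 1) ^ K ≤ ((n : ℤ) + 1) ^ (K + a₀.natAbs) := pow_le_pow_right₀ hx (by omega)
    have e2 : 1 ≤ ((n : ℤ) + 1) ^ (K + a₀.natAbs) := one_le_pow₀ hx
    have e3 : |a₀| ≤ |a₀| * ((n : ℤ) + 1) ^ (K + a₀.natAbs) := le_mul_of_one_le_right (abs_nonneg _) e2
    have e4 : (K : ℤ) * ((n : ℤ) + 1) ^ K ≤ K * ((n : ℤ) + 1) ^ (K + a₀.natAbs) :=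
      mul_le_mul_of_nonneg_left e1 (by positivity)
    push_cast
    rw [add_mul]
    rw [← Int.natCast_natAbs a₀] at e3 h3
    push_cast at e3 h3 ⊢
    linarith
  obtain ⟨c, hc, X₁, hasm⟩ := assemble_gen W hW 2 V hVc (K + a₀.natAbs) hVb (R.card + e) e (2 * e)
    (by omega) (by omega) (by
      refine ⟨C, hC, y₀, fun y hy L hyL hLy => ?_⟩
      obtain ⟨S, s, hS, hs⟩ := hsv y hy L hyL hLy
      -- the classes
      have hβ : ∀ p : ℕ, ∃ β : ℕ, (p.Prime → ¬ p ∣ W →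
          (p : ℤ) ∣ (W : ℤ) * β - (if p ∈ S then -(a₀ + G (s p)) else -(a₀ + C₀))) := by
        intro p
        by_cases h : p.Prime ∧ ¬ p ∣ W
        · obtain ⟨β, hβ⟩ := inv_nat p h.1 W (fun h' => h.2 (Int.natCast_dvd_natCast.1 h'))
            (if p ∈ S then -(a₀ + G (s p)) else -(a₀ + C₀))
          exact ⟨β, fun _ _ => hβ⟩
        · exact ⟨0, fun h1 h2 => absurd ⟨h1, h2⟩ h⟩
      choose β hβ using hβ
      refine ⟨β, ?_⟩
      refine le_trans ?_ hs
      have hsub : ((range (L + 1)).biUnion V).filter (fun a => ∀ p : ℕ, p.Prime → (p : ℝ) ≤ y →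
          ¬ (p : ℤ) ∣ (W : ℤ) * (β p : ℤ) + a) ⊆
          ((Finset.Icc (-(L : ℤ)) L).filter (fun t => Ok R W y S t ∧
            ∀ p ∈ S, ¬ (p : ℤ) ∣ G t - G (s p))).image (fun t => a₀ + G t) := by
        intro v hv
        rw [mem_filter, mem_biUnion] at hv
        obtain ⟨⟨n, hn, hvn⟩, hall⟩ := hv
        obtain ⟨t, ht, rfl⟩ := hVmem n v hvn
        rw [mem_range] at hn
        rw [mem_image]
        refine ⟨t, mem_filter.2 ⟨mem_Icc.2 (by omega), ?_, ?_⟩, rfl⟩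
        · intro p hp hpW hpy hpS r hr hd
          apply hall p hp hpy
          have h1 := hβ p hp hpW
          rw [if_neg hpS] at h1
          have h2 := hd.trans (hG r t)
          rw [hRC r hr] at h2
          have h3 := dvd_add h1 h2
          refine h3.trans (dvd_of_eq ?_)
          ring
        · intro p hpS hd
          obtain ⟨hp, hpW, hpy⟩ := hS p hpS
          apply hall p hp hpy
          have h1 := hβ p hp hpW
          rw [if_pos hpS] at h1
          have h3 := dvd_add h1 hd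
          refine h3.trans (dvd_of_eq ?_)
          ring
      have h2 : ((((range (L + 1)).biUnion V).filter (fun a => ∀ p : ℕ, p.Prime → (p : ℝ) ≤ y →
          ¬ (p : ℤ) ∣ (W : ℤ) * (β p : ℤ) + a)).card) ≤
          ((Finset.Icc (-(L : ℤ)) L).filter (fun t => Ok R W y S t ∧
            ∀ p ∈ S, ¬ (p : ℤ) ∣ G t - G (s p))).card := (card_le_card hsub).trans card_image_le
      exact_mod_cast h2)
  -- from `X` to `X / (2 W)`
  have hWr : (1 : ℝ) ≤ W := by exact_mod_cast hW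
  set δ : ℝ := 1 / (2 * W) with hδ
  have hδ0 : 0 < δ := by positivity
  have hδ1 : δ ≤ 1 := by rw [hδ, div_le_one (by positivity)]; linarith
  obtain ⟨X₂, hsc⟩ := scale_F δ hδ0 hδ1 (R.card + e) e (2 * e)
  refine ⟨c / 2 ^ (1 + (R.card + e) + e), by positivity, max X₂ (max (2 * W * X₁) (8 * W)), fun X hX z => ?_⟩
  have hX2 := hsc X ((le_max_left _ _).trans hX)
  have hXa : 2 * W * X₁ ≤ X := (le_max_left _ _).trans ((le_max_right _ _).trans hX)
  have hXb : 8 * (W : ℝ) ≤ X := (le_max_right _ _).trans ((le_max_right _ _).trans hX)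
  have hX1 : X₁ ≤ δ * X := by
    rw [hδ, div_mul_eq_mul_div, one_mul, le_div_iff₀ (by positivity)]
    linarith
  obtain ⟨m, hm1, hm2, hm⟩ := hasm (δ * X) hX1 ((z - a₀) / W)
  have hWz : (0 : ℤ) < W := by exact_mod_cast hW
  have hz1 : W * ((z - a₀) / W) ≤ z - a₀ := Int.mul_ediv_self_le hWz.ne'
  have hz2 : z - a₀ < W * ((z - a₀) / W) + W := Int.lt_mul_ediv_self_add hWz
  have hz1r : (W : ℝ) * (((z - a₀) / W : ℤ) : ℝ) ≤ z - a₀ := by exact_mod_cast hz1
  have hz2r : (z : ℝ) - a₀ < W * (((z - a₀) / W : ℤ) : ℝ) + W := by exact_mod_cast hz2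
  have hWX : (W : ℝ) * (δ * X) = X / 2 := by rw [hδ]; field_simp
  have hW0 : (0 : ℝ) < W := by linarith
  refine ⟨W * m + a₀, ?_, ?_, ⟨m, by ring⟩, ?_⟩
  · push_cast
    have h1 := mul_lt_mul_of_pos_left hm1 hW0
    have h2 : (W : ℝ) * ((((z - a₀) / W : ℤ) : ℝ) + δ * X / 4) = W * (((z - a₀) / W : ℤ) : ℝ) + (W * (δ * X)) / 4 := by
      ring
    rw [h2, hWX] at h1
    linarith
  · push_cast
    have h1 := mul_le_mul_of_nonneg_left hm2 hW0.le
    rw [mul_add, hWX] at h1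
    linarith
  · intro t ht
    have h1 : ((t.natAbs : ℕ) : ℝ) = |(t : ℝ)| := by rw [Nat.cast_natAbs]; push_cast; rfl
    have h2 := hm t.natAbs (by
      rw [h1]
      refine ht.trans ?_
      rw [div_mul_eq_mul_div, div_le_iff₀ (by positivity), mul_assoc c, mul_comm _ ((2 : ℝ) ^ (1 + (R.card + e) + e))]
      exact mul_le_mul_of_nonneg_left hX2 hc.le) _ (hmem t)
    intro hp
    apply h2
    have h3 : (W : ℤ) * m + (a₀ + G t) = G t + (W * m + a₀) := by ring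
    rw [h3]
    exact hp

end Pool.Agent.N893.PG
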