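import Mathlib
import Pool.Agent.N893.PG.Fin

set_option autoImplicit false
set_option maxHeartbeats 4000000

/-! # Irreducible polynomials without a fixed divisor and with a very late first prime value -/

namespace Pool.Agent.N893.PG

open Finset Filter Polynomial

/-- the polynomial `∏ (t² - (N (i + 1))²)` -/
noncomputable def GN (k N : ℕ) : Polynomial ℤ := ∏ i ∈ range k, (X ^ 2 - C (((N : ℤ) * (i + 1)) ^ 2))

theorem GN_eval (k N : ℕ) (t : ℤ) : (GN k N).eval t = ∏ i ∈ range k, (t ^ 2 - ((N : ℤ) * (i + 1)) ^ 2) := by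
  unfold GN
  rw [eval_prod]
  apply prod_congr rfl
  intro i _
  rw [eval_sub, eval_pow, eval_X, eval_C]

theorem fac_monic (c : ℤ) : (X ^ 2 - C c : Polynomial ℤ).Monic := monic_X_pow_sub_C c two_ne_zero

theorem GN_monic (k N : ℕ) : (GN k N).Monic := by
  unfold GN
  exact monic_prod_of_monic _ _ fun i _ => fac_monic _

theorem GN_natDegree (k N : ℕ) : (GN k N).natDegree = 2 * k := by
  unfold GN
  rw [natDegree_prod_of_monic _ _ fun i _ => fac_monic _]
  rw [sum_congr rfl fun i _ => natDegree_X_pow_sub_C (n := 2), sum_const, card_range, smul_eq_mul, mul_comm]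

theorem GNa_monic (k N : ℕ) (hk : 1 ≤ k) (a : ℤ) : (GN k N + C a).Monic := by
  apply (GN_monic k N).add_of_left
  rw [degree_eq_natDegree (GN_monic k N).ne_zero, GN_natDegree]
  refine lt_of_le_of_lt degree_C_le ?_
  exact_mod_cast (by omega : 0 < 2 * k)

theorem GNa_natDegree (k N : ℕ) (a : ℤ) : (GN k N + C a).natDegree = 2 * k := by
  rw [natDegree_add_C, GN_natDegree]

theorem GN_map (k N p : ℕ) (hp : p ∣ N) : (GN k N).map (Int.castRingHom (ZMod p)) = X ^ (2 * k) := by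
  unfold GN
  rw [Polynomial.map_prod]
  have h1 : ∀ i ∈ range k, (X ^ 2 - C (((N : ℤ) * (i + 1)) ^ 2) : Polynomial ℤ).map (Int.castRingHom (ZMod p)) = X ^ 2 := by
    intro i _
    rw [Polynomial.map_sub, Polynomial.map_pow, map_X, map_C]
    have h2 : (Int.castRingHom (ZMod p)) (((N : ℤ) * (i + 1)) ^ 2) = 0 := by
      have h3 : (Int.castRingHom (ZMod p)) (((N : ℤ) * (i + 1)) ^ 2) = ((((N : ℤ) * (i + 1)) ^ 2 : ℤ) : ZMod p) := rfl
      rw [h3, ZMod.intCast_zmod_eq_zero_iff_dvd]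
      have h4 : (p : ℤ) ∣ (N : ℤ) := Int.natCast_dvd_natCast.2 hp
      exact dvd_pow (h4.mul_right _) two_ne_zero
    rw [h2, C_0, sub_zero]
  rw [prod_congr rfl h1, prod_const, card_range, ← pow_mul]

theorem GNa_irreducible (k N : ℕ) (hk : 1 ≤ k) (hN : 2 ∣ N) (a : ℤ) (ha : (4 : ℤ) ∣ a - 2) :
    Irreducible (GN k N + C a) := by
  have hP : (Ideal.span {(2 : ℤ)}).IsPrime := by
    rw [Ideal.span_singleton_prime two_ne_zero]
    exact Int.prime_two
  have h2a : (2 : ℤ) ∣ a := by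
    obtain ⟨j, hj⟩ := ha
    exact ⟨2 * j + 1, by linarith⟩
  have hE : (GN k N + C a).IsEisensteinAt (Ideal.span {(2 : ℤ)}) := by
    refine ⟨?_, ?_, ?_⟩
    · rw [(GNa_monic k N hk a).leadingCoeff, Ideal.mem_span_singleton]
      intro h
      have := Int.eq_one_of_dvd_one (by norm_num) h
      norm_num at this
    · intro n hn
      rw [GNa_natDegree] at hn
      rw [Ideal.mem_span_singleton]
      have h1 : ((GN k N + C a).map (Int.castRingHom (ZMod 2))).coeff n = 0 := by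
        rw [Polynomial.map_add, GN_map k N 2 hN, map_C]
        have h2 : (Int.castRingHom (ZMod 2)) a = 0 := by
          have h3 : (Int.castRingHom (ZMod 2)) a = ((a : ℤ) : ZMod 2) := rfl
          rw [h3, ZMod.intCast_zmod_eq_zero_iff_dvd]
          exact h2a
        rw [h2, C_0, add_zero, coeff_X_pow, if_neg (by omega)]
      rw [coeff_map] at h1
      have h3 : ((Int.castRingHom (ZMod 2)) ((GN k N + C a).coeff n)) = (((GN k N + C a).coeff n : ℤ) : ZMod 2) := rfl
      rw [h3, ZMod.intCast_zmod_eq_zero_iff_dvd] at h1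
      exact h1
    · rw [Ideal.span_singleton_pow, Ideal.mem_span_singleton, coeff_zero_eq_eval_zero, eval_add, eval_C, GN_eval]
      intro h
      have h1 : (4 : ℤ) ∣ ∏ i ∈ range k, ((0 : ℤ) ^ 2 - ((N : ℤ) * (i + 1)) ^ 2) := by
        have h2 : (4 : ℤ) ∣ (0 : ℤ) ^ 2 - ((N : ℤ) * ((0 : ℕ) + 1)) ^ 2 := by
          obtain ⟨j, hj⟩ := hN
          exact ⟨-(j : ℤ) ^ 2, by rw [hj]; push_cast; ring⟩
        exact h2.trans (dvd_prod_of_mem _ (mem_range.2 (by omega)))
      have h3 := dvd_sub h h1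
      have h4 : (2 : ℤ) ^ 2 = 4 := by norm_num
      rw [h4] at h
      have h5 := dvd_sub h h1
      obtain ⟨j, hj⟩ := ha
      obtain ⟨i, hi⟩ := h5
      omega
  exact hE.irreducible hP (GNa_monic k N hk a).isPrimitive (by rw [GNa_natDegree]; omega)

theorem GNa_nofix (k : ℕ) (hk : 1 ≤ k) (a : ℤ) (p : ℕ) (hp : p.Prime) :
    ∃ t : ℤ, ¬ (p : ℤ) ∣ (GN k (2 * k + 1).factorial + C a).eval t := by
  by_contra hcon
  push Not at hcon
  by_cases hpk : p ≤ 2 * k + 1
  · have hpN : p ∣ (2 * k + 1).factorial := hp.dvd_factorial.2 hpk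
    have h0 := hcon 0
    have h1 := hcon 1
    have h2 := dvd_sub h1 h0
    rw [eval_add, eval_add, eval_C, eval_C] at h2
    have h3 : ∀ t : ℤ, (p : ℤ) ∣ (GN k (2 * k + 1).factorial).eval t - t ^ (2 * k) := by
      intro t
      rw [← ZMod.intCast_zmod_eq_zero_iff_dvd]
      have h4 := congrArg (fun f => eval ((t : ℤ) : ZMod p) f) (GN_map k _ p hpN)
      simp only [eval_pow, eval_X] at h4
      have h5 : eval ((t : ℤ) : ZMod p) ((GN k (2 * k + 1).factorial).map (Int.castRingHom (ZMod p))) =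
          (((GN k (2 * k + 1).factorial).eval t : ℤ) : ZMod p) := by
        rw [eval_map]
        have h6 := (Polynomial.hom_eval₂ (GN k (2 * k + 1).factorial) (RingHom.id ℤ) (Int.castRingHom (ZMod p)) t)
        rw [RingHom.comp_id] at h6
        exact h6.symm
      rw [h5] at h4
      push_cast
      rw [h4, sub_self]
    have h4 := h3 0
    have h5 := h3 1
    rw [zero_pow (by omega), sub_zero] at h4
    rw [one_pow] at h5
    have h6 := dvd_sub (dvd_sub h2 h5) h4
    have h7 : (p : ℤ) ∣ 1 := by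
      have h8 := dvd_add h6 (h4.mul_left 2)
      refine h8.trans (dvd_of_eq ?_)
      ring
    have := Int.eq_one_of_dvd_one (by positivity) h7
    have h8 := hp.two_le
    omega
  · push Not at hpk
    have : Fact p.Prime := ⟨hp⟩
    have hmon : ((GN k (2 * k + 1).factorial + C a).map (Int.castRingHom (ZMod p))).Monic :=
      (GNa_monic k _ hk a).map _
    apply hmon.ne_zero
    apply eq_zero_of_natDegree_lt_card_of_eval_eq_zero _ (f := fun x : ZMod p => x) (fun _ _ h => h)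
    · intro x
      obtain ⟨t, rfl⟩ := ZMod.intCast_surjective x
      have h5 : eval ((t : ℤ) : ZMod p) ((GN k (2 * k + 1).factorial + C a).map (Int.castRingHom (ZMod p))) =
          (((GN k (2 * k + 1).factorial + C a).eval t : ℤ) : ZMod p) := by
        rw [eval_map]
        have h6 := (Polynomial.hom_eval₂ (GN k (2 * k + 1).factorial + C a) (RingHom.id ℤ) (Int.castRingHom (ZMod p)) t)
        rw [RingHom.comp_id] at h6
        exact h6.symm
      rw [h5, ZMod.intCast_zmod_eq_zero_iff_dvd]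
      exact hcon t
    · rw [(GNa_monic k _ hk a).natDegree_map, GNa_natDegree, ZMod.card]
      omega

theorem ev_final (c : ℝ) (hc : 0 < c) (A k : ℕ) (hk : A ≤ k) : ∃ X₀ : ℝ, ∀ X : ℝ, X₀ ≤ X →
    Real.log X * (Real.log (Real.log X)) ^ A ≤ c * (Real.log X * (Real.log (Real.log X)) ^ (2 * k + 2) *
      (Real.log (Real.log (Real.log (Real.log X)))) ^ 2 / (Real.log (Real.log (Real.log X))) ^ (2 * 2)) := by
  have hlog1 := Real.tendsto_log_atTop
  have hl2 := hlog1.comp hlog1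
  have hl3 := hlog1.comp hl2
  have hl4 := hlog1.comp hl3
  obtain ⟨x₁, hx₁⟩ := eventually_atTop.1 (Pool.Agent.N893.RK.ev_pow (1 / c) (2 * 2))
  have hall := (((((hlog1.eventually_ge_atTop 1).and
    (hl2.eventually_ge_atTop (max 1 x₁))).and
    (hl3.eventually_ge_atTop 1)).and (hl4.eventually_ge_atTop 1)))
  obtain ⟨X₀, hX₀⟩ := eventually_atTop.1 hall
  refine ⟨X₀, fun X hX => ?_⟩
  obtain ⟨⟨⟨g1, g2⟩, g3⟩, g4⟩ := hX₀ X hX
  simp only [Function.comp_apply] at g2 g3 g4
  simp only [max_le_iff] at g2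
  obtain ⟨g2a, g2b⟩ := g2
  set L1 := Real.log X with hL1
  set L2 := Real.log L1 with hL2
  set L3 := Real.log L2 with hL3
  set L4 := Real.log L3 with hL4
  have h1 : 1 / c * L3 ^ (2 * 2) ≤ L2 := hx₁ L2 g2b
  have h2 : L3 ^ (2 * 2) ≤ c * L2 := by
    have := mul_le_mul_of_nonneg_left h1 hc.le
    calc L3 ^ (2 * 2) = c * (1 / c * L3 ^ (2 * 2)) := by field_simp
      _ ≤ _ := this
  have hL3p : 0 < L3 ^ (2 * 2) := by positivity
  have h3 : L2 ^ A * L2 ≤ L2 ^ (2 * k + 2) := by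
    rw [← pow_succ]
    exact pow_le_pow_right₀ g2a (by omega)
  rw [← mul_div_assoc, le_div_iff₀ hL3p]
  have h4 : (1 : ℝ) ≤ L4 ^ 2 := one_le_pow₀ g4
  have hL2p : 0 < L2 := by linarith
  have hL1p : 0 < L1 := by linarith
  calc L1 * L2 ^ A * L3 ^ (2 * 2) ≤ L1 * L2 ^ A * (c * L2) := by gcongr
    _ = c * (L1 * (L2 ^ A * L2)) * 1 := by ring
    _ ≤ c * (L1 * L2 ^ (2 * k + 2)) * L4 ^ 2 := by gcongr
    _ = _ := by ring

/-- the set of the zeros of `GN` -/
def RN (k N : ℕ) : Finset ℤ := (range k).image (fun i : ℕ => (N : ℤ) * (i + 1)) ∪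
  (range k).image (fun i : ℕ => -((N : ℤ) * (i + 1)))

theorem RN_card (k N : ℕ) (hN : 1 ≤ N) : (RN k N).card = 2 * k := by
  unfold RN
  have hN' : (0 : ℤ) < N := by exact_mod_cast hN
  rw [card_union_of_disjoint, card_image_of_injective, card_image_of_injective, card_range]
  · omega
  · intro i j h
    simp only [neg_inj] at h
    have := mul_left_cancel₀ hN'.ne' h
    omega
  · intro i j h
    simp only at h
    have := mul_left_cancel₀ hN'.ne' h
    omega
  · rw [Finset.disjoint_left]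
    intro x hx hx'
    rw [mem_image] at hx hx'
    obtain ⟨i, _, rfl⟩ := hx
    obtain ⟨j, _, hj⟩ := hx'
    have h1 : 0 < (N : ℤ) * ((i : ℤ) + 1) := by positivity
    have h2 : 0 < (N : ℤ) * ((j : ℤ) + 1) := by positivity
    linarith

theorem RN_zero (k N : ℕ) (r : ℤ) (hr : r ∈ RN k N) : (GN k N).eval r = 0 := by
  unfold RN at hr
  rw [mem_union, mem_image, mem_image] at hr
  rw [GN_eval]
  rcases hr with ⟨i, hi, rfl⟩ | ⟨i, hi, rfl⟩
  · exact prod_eq_zero hi (by ring)
  · exact prod_eq_zero hi (by ring)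

theorem bun (A : ℕ) : ∃ G : Polynomial ℤ, ∃ X₀ : ℝ, ∀ X : ℝ, X₀ ≤ X → ∀ z : ℤ,
    ∃ a : ℤ, (z : ℝ) < a ∧ (a : ℝ) ≤ z + X ∧ (G + C a).Monic ∧ Irreducible (G + C a) ∧
      (∀ p : ℕ, p.Prime → ∃ t : ℤ, ¬ (p : ℤ) ∣ (G + C a).eval t) ∧
      ∀ t : ℤ, |(t : ℝ)| ≤ Real.log X * (Real.log (Real.log X)) ^ A → ¬ Prime ((G + C a).eval t) := by
  set k := A + 1 with hk
  have hk1 : 1 ≤ k := by omega
  set N := (2 * k + 1).factorial with hN
  have hN1 : 1 ≤ N := Nat.factorial_pos _
  have hN2 : 2 ∣ N := Nat.dvd_factorial (by norm_num) (by omega)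
  have hne : (RN k N).Nonempty := by
    rw [← card_pos, RN_card k N hN1]; omega
  obtain ⟨c, hc, X₁, h⟩ := main (fun t => (GN k N).eval t) (fun s t => Polynomial.sub_dvd_eval_sub t s (GN k N))
    (poly_growth (GN k N)) (RN k N) hne 0 (fun r hr => RN_zero k N r hr) 4 (by norm_num) 2 2
    (Or.inr ⟨rfl, 0, fun t => by
      simp only [GN_eval]
      apply prod_congr rfl
      intro i _
      ring⟩)
  obtain ⟨X₂, h2⟩ := ev_final c hc A k (by omega)
  refine ⟨GN k N, max X₁ X₂, fun X hX z => ?_⟩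
  obtain ⟨a, ha1, ha2, ha3, ha4⟩ := h X ((le_max_left _ _).trans hX) z
  refine ⟨a, ha1, ha2, GNa_monic k N hk1 a, GNa_irreducible k N hk1 hN2 a (by exact_mod_cast ha3),
    fun p hp => GNa_nofix k hk1 a p hp, fun t ht => ?_⟩
  rw [eval_add, eval_C]
  apply ha4
  rw [RN_card k N hN1]
  exact ht.trans (h2 X ((le_max_right _ _).trans hX))

end Pool.Agent.N893.PG
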